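import Mathlib
import Pool.Agent.TH876.Main
import Pool.Agent.TH876.Proj

set_option autoImplicit false

/-!
# Coprime integral triples and their points
-/

namespace Pool.Agent.TH402.AK

open NumberField IsDedekindDomain Finset Pool.Agent.H691R3 Pool.Agent.TH876.Loc

variable {K : Type} [Field K] [NumberField K]

/-- `a + b = c` with `a, b` coprime and `a b c ≠ 0` -/
structure Tri (a b : 𝓞 K) : Prop where
  a0 : a ≠ 0
  b0 : b ≠ 0
  c0 : a + b ≠ 0
  cop : IsCoprime a b

/-- the point of a triple -/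
noncomputable def pt (a b : 𝓞 K) : K := (a : K) / (b : K)

theorem coe_ne {a : 𝓞 K} (h : a ≠ 0) : (a : K) ≠ 0 := by
  intro h'
  exact h (RingOfIntegers.coe_eq_zero_iff.1 h')

theorem pt_add_one {a b : 𝓞 K} (hb : b ≠ 0) : pt a b + 1 = ((a + b : 𝓞 K) : K) / (b : K) := by
  have := coe_ne hb
  unfold pt
  push_cast
  field_simp

theorem Tri.pt {a b : 𝓞 K} (h : Tri a b) : Pt (pt a b) := by
  refine ⟨div_ne_zero (coe_ne h.a0) (coe_ne h.b0), ?_⟩
  rw [pt_add_one h.b0]
  exact div_ne_zero (coe_ne h.c0) (coe_ne h.b0)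

theorem fv_le_one (v : Pr K) (r : 𝓞 K) : fv v (r : K) ≤ 1 := FinitePlace.norm_le_one K v r

theorem fv_lt_one_iff (v : Pr K) (r : 𝓞 K) : fv v (r : K) < 1 ↔ r ∈ v.asIdeal :=
  FinitePlace.norm_lt_one_iff_mem K v r

theorem fv_eq_one_iff (v : Pr K) (r : 𝓞 K) : fv v (r : K) = 1 ↔ r ∉ v.asIdeal :=
  FinitePlace.norm_eq_one_iff_notMem K v r

theorem not_both {a b : 𝓞 K} (h : IsCoprime a b) (v : Pr K) (ha : a ∈ v.asIdeal)
    (hb : b ∈ v.asIdeal) : False := by
  obtain ⟨x, y, hxy⟩ := h
  apply v.isPrime.ne_top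
  rw [Ideal.eq_top_iff_one, ← hxy]
  exact v.asIdeal.add_mem (v.asIdeal.mul_mem_left x ha) (v.asIdeal.mul_mem_left y hb)

/-- the primes of the point are the primes dividing `a b c` -/
theorem Tri.mem_sp {a b : 𝓞 K} (h : Tri a b) (v : Pr K) :
    v ∈ sp (AK.pt a b) ↔ a * b * (a + b) ∈ v.asIdeal := by
  have hp := v.isPrime
  rw [Pool.Agent.TH876.Loc.mem_sp h.pt, pt_add_one h.b0]
  unfold AK.pt
  rw [map_div₀, map_div₀, hp.mul_mem_iff_mem_or_mem, hp.mul_mem_iff_mem_or_mem]
  have hbpos : 0 < fv v (b : K) := (fv v).pos (coe_ne h.b0)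
  rw [div_eq_one_iff_eq hbpos.ne', div_eq_one_iff_eq hbpos.ne']
  by_cases hb : b ∈ v.asIdeal
  · have ha : a ∉ v.asIdeal := fun ha => not_both h.cop v ha hb
    have h1 := (fv_eq_one_iff v a).2 ha
    have h2 := (fv_lt_one_iff v b).2 hb
    constructor
    · intro _
      exact Or.inl (Or.inr hb)
    · rintro _ ⟨h3, _⟩
      rw [h1] at h3
      linarith
  · have h2 := (fv_eq_one_iff v b).2 hb
    rw [h2, fv_eq_one_iff, fv_eq_one_iff]
    tauto

/-- the height of the point of a triple -/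
theorem Tri.hgt {a b : 𝓞 K} (h : Tri a b) :
    hgt (AK.pt a b) = ∑ w : InfinitePlace K, (w.mult : ℝ) *
      Real.log (max (w (a : K)) (max (w (b : K)) (w ((a + b : 𝓞 K) : K)))) := by
  classical
  have hb0 := coe_ne h.b0
  -- primes: the maximum of the three absolute values is one
  have hmax : ∀ v : Pr K, mx (Sum.inr v : Pl K) (AK.pt a b) = - Real.log (fv v (b : K)) := by
    intro v
    have hbpos : 0 < fv v (b : K) := (fv v).pos hb0
    have hM : M (Sum.inr v : Pl K) (AK.pt a b) = 1 / fv v (b : K) := by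
      show max (fv v (AK.pt a b)) (max (fv v (1 : K)) (fv v (-(AK.pt a b) - 1))) = _
      have e1 : -(AK.pt a b) - 1 = -(AK.pt a b + 1) := by ring
      rw [e1, (fv v).map_neg, pt_add_one h.b0]
      unfold AK.pt
      rw [map_div₀, map_div₀, map_one]
      have h3 := fv_le_one v a
      have h4 := fv_le_one v b
      have h5 := fv_le_one v (a + b)
      have h6 : (1 : ℝ) ≤ 1 / fv v (b : K) := by
        rw [le_div_iff₀ hbpos, one_mul]
        exact h4
      refine le_antisymm ?_ ?_
      · refine max_le ?_ (max_le h6 ?_)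
        · exact div_le_div_of_nonneg_right h3 hbpos.le
        · exact div_le_div_of_nonneg_right h5 hbpos.le
      · by_cases hbm : b ∈ v.asIdeal
        · have ha : a ∉ v.asIdeal := fun ha => not_both h.cop v ha hbm
          rw [(fv_eq_one_iff v a).2 ha]
          exact le_max_left _ _
        · rw [(fv_eq_one_iff v b).2 hbm]
          norm_num
    unfold mx
    rw [hM]
    show 1 * Real.log (1 / fv v (b : K)) = _
    rw [one_mul, one_div, Real.log_inv]
  have hinf : ∀ w : InfinitePlace K, mx (Sum.inl w : Pl K) (AK.pt a b) =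
      (w.mult : ℝ) * Real.log (max (w (a : K)) (max (w (b : K)) (w ((a + b : 𝓞 K) : K)))) -
        (w.mult : ℝ) * Real.log (w (b : K)) := by
    intro w
    have hbpos : 0 < w (b : K) := InfinitePlace.pos_iff.2 hb0
    have hM : M (Sum.inl w : Pl K) (AK.pt a b) =
        max (w (a : K)) (max (w (b : K)) (w ((a + b : 𝓞 K) : K))) / w (b : K) := by
      show max (w (AK.pt a b)) (max (w (1 : K)) (w (-(AK.pt a b) - 1))) = _
      have e1 : -(AK.pt a b) - 1 = -(AK.pt a b + 1) := by ring
      have e2 : w (-(AK.pt a b + 1)) = w (AK.pt a b + 1) := w.1.map_neg _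
      rw [e1, e2, pt_add_one h.b0]
      unfold AK.pt
      rw [map_div₀, map_div₀, map_one, show (1 : ℝ) = w (b : K) / w (b : K) from
        (div_self hbpos.ne').symm, max_div_div_right hbpos.le, max_div_div_right hbpos.le]
    unfold mx
    rw [hM]
    show (w.mult : ℝ) * Real.log _ = _
    have hpos : 0 < max (w (a : K)) (max (w (b : K)) (w ((a + b : 𝓞 K) : K))) :=
      lt_of_lt_of_le hbpos ((le_max_left _ _).trans (le_max_right _ _))
    rw [Real.log_div hpos.ne' hbpos.ne']
    ring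
  have hV : ∀ v, v ∉ sp (AK.pt a b) → fv v (b : K) = 1 := by
    intro v hv
    rw [fv_eq_one_iff]
    intro hb
    apply hv
    rw [h.mem_sp]
    exact v.asIdeal.mul_mem_right _ (v.asIdeal.mul_mem_left _ hb)
  have hs := sum_lg hb0 hV
  rw [sum_Spl] at hs
  have e3 : ∀ v : Pr K, lg (Sum.inr v : Pl K) (b : K) = Real.log (fv v (b : K)) := by
    intro v
    show 1 * Real.log (fv v (b : K)) = _
    rw [one_mul]
  have e4 : ∀ w : InfinitePlace K, lg (Sum.inl w : Pl K) (b : K) = (w.mult : ℝ) *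
      Real.log (w (b : K)) := fun w => rfl
  simp only [e3, e4] at hs
  unfold Pool.Agent.TH876.Loc.hgt
  rw [sum_Spl]
  simp only [hmax, hinf]
  rw [Finset.sum_sub_distrib, Finset.sum_neg_distrib]
  linarith

end Pool.Agent.TH402.AK
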