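import Mathlib
import Pool.Agent.TH402.AK.Base

set_option autoImplicit false

/-!
# The Gaussian integers as a ring of integers
-/

namespace Pool.Agent.TH402.AK

open NumberField IsDedekindDomain Finset Pool.Agent.H691R3 Pool.Agent.TH876.Loc

/-- the field of fractions of the Gaussian integers -/
abbrev K4 : Type := CyclotomicField 4 ℚ

instance : NeZero ((4 : ℕ) : ℚ) := ⟨by norm_num⟩

instance instCyc : IsCyclotomicExtension {4} ℚ K4 := CyclotomicField.isCyclotomicExtension 4 ℚ

noncomputable def z4 : K4 := IsCyclotomicExtension.zeta 4 ℚ K4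

theorem z4_spec : IsPrimitiveRoot z4 4 := IsCyclotomicExtension.zeta_spec 4 ℚ K4

theorem z4_sq : z4 * z4 = -1 := by
  have h1 : z4 ^ 4 = 1 := z4_spec.pow_eq_one
  have h2 : z4 ^ 2 ≠ 1 := z4_spec.pow_ne_one_of_pos_of_lt (by norm_num) (by norm_num)
  have h3 : (z4 ^ 2 - 1) * (z4 * z4 + 1) = 0 := by linear_combination h1
  rcases mul_eq_zero.1 h3 with h | h
  · exact absurd (sub_eq_zero.1 h) h2
  · linear_combination h

/-- the embedding of the Gaussian integers -/
noncomputable def emb : GaussianInt →+* K4 :=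
  Zsqrtd.lift ⟨z4, by rw [z4_sq]; norm_num⟩

theorem emb_apply (z : GaussianInt) : emb z = z.re + z.im * z4 := rfl

theorem emb_inj : Function.Injective emb := by
  refine Zsqrtd.lift_injective _ ?_
  intro n h
  nlinarith [mul_self_nonneg n]

theorem z4_integral : IsIntegral ℤ z4 := z4_spec.isIntegral (by norm_num)

theorem emb_integral (z : GaussianInt) : IsIntegral ℤ (emb z) := by
  rw [emb_apply]
  exact IsIntegral.add (isIntegral_algebraMap (R := ℤ) (x := z.re))
    (IsIntegral.mul (isIntegral_algebraMap (R := ℤ) (x := z.im)) z4_integral)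

theorem emb_surj {x : K4} (hx : IsIntegral ℤ x) : ∃ z, emb z = x := by
  have h1 := IsCyclotomicExtension.Rat.isIntegralClosure_adjoin_singleton (n := 4) (K := K4) z4_spec
  obtain ⟨y, hy⟩ := h1.isIntegral_iff.1 hx
  have h2 : Algebra.adjoin ℤ ({z4} : Set K4) ≤ (emb.toIntAlgHom).range := by
    refine Algebra.adjoin_le ?_
    intro u hu
    rw [Set.mem_singleton_iff] at hu
    rw [hu]
    exact ⟨⟨0, 1⟩, by simp [emb_apply]⟩
  obtain ⟨z, hz⟩ := h2 y.2
  exact ⟨z, by rw [← hy]; exact hz⟩

/-- the Gaussian integers are the ring of integers of `K4` -/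
noncomputable def e : GaussianInt ≃+* 𝓞 K4 :=
  RingEquiv.ofBijective
    (emb.codRestrict (integralClosure ℤ K4).toSubring emb_integral : GaussianInt →+* 𝓞 K4)
    ⟨fun a b h => emb_inj (congrArg Subtype.val h), fun x => by
      obtain ⟨z, hz⟩ := emb_surj x.2
      exact ⟨z, Subtype.ext hz⟩⟩

theorem e_coe (z : GaussianInt) : ((e z : 𝓞 K4) : K4) = emb z := rfl

theorem place_e (w : InfinitePlace K4) (z : GaussianInt) :
    w ((e z : 𝓞 K4) : K4) = ‖GaussianInt.toComplex z‖ := by
  rw [e_coe, emb_apply, ← InfinitePlace.norm_embedding_eq, GaussianInt.toComplex_def]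
  rw [map_add, map_mul, map_intCast, map_intCast]
  have h1 : w.embedding z4 * w.embedding z4 = -1 := by
    rw [← map_mul, z4_sq]; simp
  have h2 : w.embedding z4 = Complex.I ∨ w.embedding z4 = -Complex.I := by
    have h3 : (w.embedding z4 - Complex.I) * (w.embedding z4 + Complex.I) = 0 := by
      linear_combination h1 - Complex.I_mul_I
    rcases mul_eq_zero.1 h3 with h | h
    · left; linear_combination h
    · right; linear_combination h
  rcases h2 with h | h
  · rw [h]
  · rw [h]
    have : (z.re : ℂ) + (z.im : ℂ) * -Complex.I = (starRingEnd ℂ) (z.re + z.im * Complex.I) := by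
      simp
    rw [this, Complex.norm_conj]

theorem finrank4 : Module.finrank ℚ K4 = 2 := by
  rw [IsCyclotomicExtension.Rat.finrank 4 K4]
  decide

theorem sum_mult : ∑ w : InfinitePlace K4, w.mult = 2 := by
  rw [InfinitePlace.sum_mult_eq, finrank4]

/-- the height of a triple of Gaussian integers -/
theorem hgt_gauss {a b : GaussianInt} (h : Tri (e a) (e b)) :
    hgt (pt (e a) (e b)) = 2 * Real.log (max ‖GaussianInt.toComplex a‖
      (max ‖GaussianInt.toComplex b‖ ‖GaussianInt.toComplex (a + b)‖)) := by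
  rw [h.hgt]
  have h1 : ∀ w : InfinitePlace K4, (w.mult : ℝ) * Real.log (max (w ((e a : 𝓞 K4) : K4))
      (max (w ((e b : 𝓞 K4) : K4)) (w ((e a + e b : 𝓞 K4) : K4)))) =
      (w.mult : ℝ) * Real.log (max ‖GaussianInt.toComplex a‖
      (max ‖GaussianInt.toComplex b‖ ‖GaussianInt.toComplex (a + b)‖)) := by
    intro w
    rw [← map_add e, place_e, place_e, place_e]
  rw [Finset.sum_congr rfl fun w _ => h1 w, ← Finset.sum_mul, ← Nat.cast_sum, sum_mult]
  norm_num

theorem absNorm_e (Q : GaussianInt) :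
    ((Ideal.absNorm (Ideal.span {e Q}) : ℕ) : ℝ) = ‖GaussianInt.toComplex Q‖ ^ 2 := by
  rw [Ideal.absNorm_span_singleton, Nat.cast_natAbs, Int.cast_abs]
  have h1 := InfinitePlace.prod_eq_abs_norm ((e Q : 𝓞 K4) : K4)
  have h2 : ∏ w : InfinitePlace K4, w ((e Q : 𝓞 K4) : K4) ^ w.mult =
      ‖GaussianInt.toComplex Q‖ ^ 2 := by
    rw [Finset.prod_congr rfl fun w _ => by rw [place_e w Q], Finset.prod_pow_eq_pow_sum, sum_mult]
  rw [← h2, h1]
  have h3 : ((Algebra.norm ℤ (e Q) : ℤ) : ℚ) = Algebra.norm ℚ ((e Q : 𝓞 K4) : K4) :=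
    Algebra.coe_norm_int (e Q)
  rw [← h3]
  simp

end Pool.Agent.TH402.AK
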