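import Mathlib
import Pool.Agent.TH402.AK.Gauss

set_option autoImplicit false

/-!
# Gaussian primes in the first quadrant
-/

namespace Pool.Agent.TH402.AK

open NumberField IsDedekindDomain Finset Pool.Agent.H691R3 Pool.Agent.TH876.Loc

/-- the first quadrant, which contains exactly one associate of every nonzero Gaussian integer -/
def Quadrant (z : GaussianInt) : Prop := 0 < z.re ∧ 0 ≤ z.im

/-- the product of `|Q|` over the Gaussian primes `Q` dividing `n`, one from each class of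
associates -/
noncomputable def rad (n : GaussianInt) : ℝ :=
  ∏ᶠ Q ∈ {Q : GaussianInt | Prime Q ∧ Q ∣ n ∧ Quadrant Q}, ‖GaussianInt.toComplex Q‖

theorem unit_cases {u : GaussianInt} (hu : IsUnit u) :
    u = 1 ∨ u = -1 ∨ u = ⟨0, 1⟩ ∨ u = ⟨0, -1⟩ := by
  have h1 : u.norm = 1 := (Zsqrtd.norm_eq_one_iff' (by norm_num) u).2 hu
  rw [Zsqrtd.norm_def] at h1
  have h2 : u.re * u.re + u.im * u.im = 1 := by linarith
  have h3 : -1 ≤ u.re := by nlinarith [mul_self_nonneg u.im, mul_self_nonneg (u.re + 1)]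
  have h4 : u.re ≤ 1 := by nlinarith [mul_self_nonneg u.im, mul_self_nonneg (u.re - 1)]
  have h5 : -1 ≤ u.im := by nlinarith [mul_self_nonneg u.re, mul_self_nonneg (u.im + 1)]
  have h6 : u.im ≤ 1 := by nlinarith [mul_self_nonneg u.re, mul_self_nonneg (u.im - 1)]
  obtain ⟨x, y⟩ := u
  simp only at h2 h3 h4 h5 h6
  have h7 : (x = 1 ∧ y = 0) ∨ (x = -1 ∧ y = 0) ∨ (x = 0 ∧ y = 1) ∨ (x = 0 ∧ y = -1) := by
    interval_cases x <;> interval_cases y <;> simp_all
  rcases h7 with ⟨rfl, rfl⟩ | ⟨rfl, rfl⟩ | ⟨rfl, rfl⟩ | ⟨rfl, rfl⟩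
  · exact Or.inl rfl
  · exact Or.inr (Or.inl rfl)
  · exact Or.inr (Or.inr (Or.inl rfl))
  · exact Or.inr (Or.inr (Or.inr rfl))

theorem quadrant_uniq {z w : GaussianInt} (hz : Quadrant z) (hw : Quadrant w)
    (h : Associated z w) : z = w := by
  obtain ⟨u, hu⟩ := h
  obtain ⟨h1, h2⟩ := hz
  obtain ⟨h3, h4⟩ := hw
  rcases unit_cases u.isUnit with h | h | h | h
  · rw [← hu, h, mul_one]
  · rw [← hu, h] at h3
    simp at h3
    omega
  · rw [← hu, h] at h3
    simp at h3
    omega
  · rw [← hu, h] at h4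
    simp at h4
    omega

theorem exists_quadrant {z : GaussianInt} (hz : z ≠ 0) : ∃ w, Quadrant w ∧ Associated z w := by
  have hI : IsUnit (⟨0, 1⟩ : GaussianInt) := by
    rw [← Zsqrtd.norm_eq_one_iff' (by norm_num)]
    rfl
  have hI' : IsUnit (⟨0, -1⟩ : GaussianInt) := by
    rw [← Zsqrtd.norm_eq_one_iff' (by norm_num)]
    rfl
  have h0 : z.re ≠ 0 ∨ z.im ≠ 0 := by
    by_contra h
    push Not at h
    exact hz (Zsqrtd.ext h.1 h.2)
  rcases lt_trichotomy z.re 0 with h1 | h1 | h1
  · rcases le_or_gt z.im 0 with h2 | h2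
    · refine ⟨-z, ⟨by simpa using h1, by simpa using h2⟩, ?_⟩
      exact Associated.neg_right (Associated.refl z)
    · refine ⟨z * ⟨0, -1⟩, ⟨?_, ?_⟩, associated_mul_unit_right z _ hI'⟩
      · simpa using h2
      · simpa using h1.le
  · rcases lt_or_gt_of_ne (h0.resolve_left (fun h => h h1)) with h2 | h2
    · refine ⟨z * ⟨0, 1⟩, ⟨?_, ?_⟩, associated_mul_unit_right z _ hI⟩
      · simpa using h2
      · simp [h1]
    · refine ⟨z * ⟨0, -1⟩, ⟨?_, ?_⟩, associated_mul_unit_right z _ hI'⟩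
      · simpa using h2
      · simp [h1]
  · rcases lt_or_ge z.im 0 with h2 | h2
    · refine ⟨z * ⟨0, 1⟩, ⟨?_, ?_⟩, associated_mul_unit_right z _ hI⟩
      · simpa using h2
      · simpa using h1.le
    · exact ⟨z, ⟨h1, h2⟩, Associated.refl z⟩

/-- the prime of `K4` generated by a Gaussian prime -/
theorem exists_gen (v : Pr K4) : ∃ Q : GaussianInt, Prime Q ∧ Quadrant Q ∧
    v.asIdeal = Ideal.span {e Q} := by
  have : IsPrincipalIdealRing (𝓞 K4) := IsPrincipalIdealRing.of_surjective e e.surjective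
  obtain ⟨x, hx⟩ := (IsPrincipalIdealRing.principal v.asIdeal).principal
  obtain ⟨z, rfl⟩ := e.surjective x
  rw [← Ideal.span] at hx
  have hz : z ≠ 0 := by
    rintro rfl
    apply v.ne_bot
    rw [hx, map_zero]
    exact Ideal.span_singleton_eq_bot.2 rfl
  obtain ⟨w, hw1, hw2⟩ := exists_quadrant hz
  have h3 : Ideal.span {e z} = Ideal.span {e w} := by
    rw [Ideal.span_singleton_eq_span_singleton]
    exact hw2.map e
  have h4 : Prime (e w) := by
    have := v.isPrime
    rw [hx, h3] at this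
    exact (Ideal.span_singleton_prime (by
      intro h
      apply v.ne_bot
      rw [hx, h3, h]
      exact Ideal.span_singleton_eq_bot.2 rfl)).1 this
  exact ⟨w, (MulEquiv.prime_iff e).1 h4, hw1, by rw [hx, h3]⟩

/-- a chosen generator -/
noncomputable def gn (v : Pr K4) : GaussianInt := (exists_gen v).choose

theorem gn_prime (v : Pr K4) : Prime (gn v) := (exists_gen v).choose_spec.1
theorem gn_quad (v : Pr K4) : Quadrant (gn v) := (exists_gen v).choose_spec.2.1
theorem gn_span (v : Pr K4) : v.asIdeal = Ideal.span {e (gn v)} := (exists_gen v).choose_spec.2.2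

theorem gn_inj : Function.Injective gn := by
  intro v w h
  apply HeightOneSpectrum.ext
  rw [gn_span v, gn_span w, h]

theorem gn_norm (v : Pr K4) : ‖GaussianInt.toComplex (gn v)‖ ^ 2 = Nv v := by
  unfold Nv
  rw [gn_span v, absNorm_e]

open Classical in
theorem quad_set {n : GaussianInt} (T : Finset (Pr K4)) (hT : ∀ v, v ∈ T ↔ e n ∈ v.asIdeal) :
    {Q : GaussianInt | Prime Q ∧ Q ∣ n ∧ Quadrant Q} = ((T.image gn : Finset _) : Set _) := by
    ext Q
    rw [Finset.mem_coe, Finset.mem_image, Set.mem_ofPred_eq]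
    constructor
    · rintro ⟨h1, h2, h3⟩
      have h4 : Prime (e Q) := (MulEquiv.prime_iff e).2 h1
      have h5 : (Ideal.span {e Q} : Ideal (𝓞 K4)).IsPrime :=
        (Ideal.span_singleton_prime h4.ne_zero).2 h4
      have h6 : (Ideal.span {e Q} : Ideal (𝓞 K4)) ≠ ⊥ := by
        rw [Ne, Ideal.span_singleton_eq_bot]
        exact h4.ne_zero
      refine ⟨⟨Ideal.span {e Q}, h5, h6⟩, ?_, ?_⟩
      · rw [hT]
        show e n ∈ Ideal.span {e Q}
        rw [Ideal.mem_span_singleton]
        exact map_dvd e h2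
      · have h7 := gn_span ⟨Ideal.span {e Q}, h5, h6⟩
        have h8 : Associated (e Q) (e (gn ⟨Ideal.span {e Q}, h5, h6⟩)) := by
          rw [← Ideal.span_singleton_eq_span_singleton]
          exact h7
        have h9 : Associated Q (gn ⟨Ideal.span {e Q}, h5, h6⟩) := by
          have := h8.map e.symm
          simpa using this
        exact (quadrant_uniq h3 (gn_quad _) h9).symm
    · rintro ⟨v, hv, rfl⟩
      refine ⟨gn_prime v, ?_, gn_quad v⟩
      rw [hT, gn_span v, Ideal.mem_span_singleton] at hv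
      exact (map_dvd_iff e).1 hv

theorem quad_finite {n : GaussianInt} (hn : n ≠ 0) :
    {Q : GaussianInt | Prime Q ∧ Q ∣ n ∧ Quadrant Q}.Finite := by
  have h0 : ((e n : 𝓞 K4) : K4) ≠ 0 := coe_ne ((map_ne_zero_iff e e.injective).2 hn)
  have h1 := fv_support_finite h0
  rw [quad_set h1.toFinset]
  · exact Finset.finite_toSet _
  · intro v
    rw [Set.Finite.mem_toFinset, Set.mem_ofPred_eq, ← not_iff_not, not_not]
    exact fv_eq_one_iff v (e n)

theorem rad_sq {n : GaussianInt} (T : Finset (Pr K4)) (hT : ∀ v, v ∈ T ↔ e n ∈ v.asIdeal) :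
    rad n ^ 2 = nn T := by
  classical
  have h1 := quad_set T hT
  unfold rad
  rw [h1, finprod_mem_coe_finset, Finset.prod_image fun _ _ _ _ h => gn_inj h, ← Finset.prod_pow]
  unfold nn
  exact Finset.prod_congr rfl fun v _ => gn_norm v

theorem rad_tri {a b : GaussianInt} (h : Tri (e a) (e b)) :
    rad (a * b * (a + b)) ^ 2 = nn (sp (pt (e a) (e b))) := by
  refine rad_sq _ ?_
  intro v
  rw [h.mem_sp v]
  simp only [map_mul, map_add]

theorem rad_pos (n : GaussianInt) : 0 ≤ rad n := by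
  unfold rad
  exact finprod_nonneg fun Q => finprod_nonneg fun _ => norm_nonneg _

end Pool.Agent.TH402.AK
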