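import Mathlib
import Pool.Agent.TH402.AK.Quad

set_option autoImplicit false

/-!
# Many coprime pairs of Gaussian integers
-/

namespace Pool.Agent.TH402.AK

open Finset

/-- the absolute value -/
noncomputable def nm (z : GaussianInt) : ℝ := ‖GaussianInt.toComplex z‖

theorem nm_sq (z : GaussianInt) : nm z ^ 2 = (z.re : ℝ) ^ 2 + (z.im : ℝ) ^ 2 := by
  unfold nm
  rw [← Complex.normSq_eq_norm_sq, Complex.normSq_apply, ← GaussianInt.intCast_re,
    ← GaussianInt.intCast_im]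
  ring

theorem nm_nonneg (z : GaussianInt) : 0 ≤ nm z := norm_nonneg _

theorem nm_mul (z w : GaussianInt) : nm (z * w) = nm z * nm w := by
  unfold nm
  rw [map_mul, norm_mul]

theorem nm_add (z w : GaussianInt) : nm (z + w) ≤ nm z + nm w := by
  unfold nm
  rw [map_add]
  exact norm_add_le _ _

theorem one_le_nm {z : GaussianInt} (hz : z ≠ 0) : 1 ≤ nm z := by
  have h1 : (1 : ℤ) ≤ z.re ^ 2 + z.im ^ 2 := by
    have h2 : 0 < z.norm := GaussianInt.norm_pos.2 hz
    rw [Zsqrtd.norm_def] at h2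
    nlinarith
  have h3 : (1 : ℝ) ≤ nm z ^ 2 := by
    rw [nm_sq]
    exact_mod_cast h1
  have := nm_nonneg z
  nlinarith

theorem abs_re_le (z : GaussianInt) : |(z.re : ℝ)| ≤ nm z := by
  refine abs_le_of_sq_le_sq ?_ (nm_nonneg z)
  rw [nm_sq]
  nlinarith [sq_nonneg (z.im : ℝ)]

theorem abs_im_le (z : GaussianInt) : |(z.im : ℝ)| ≤ nm z := by
  refine abs_le_of_sq_le_sq ?_ (nm_nonneg z)
  rw [nm_sq]
  nlinarith [sq_nonneg (z.re : ℝ)]

/-- a box of Gaussian integers -/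
noncomputable def box (m : ℤ) : Finset GaussianInt :=
  ((Finset.Icc (-m) m) ×ˢ (Finset.Icc (-m) m)).image fun p => (⟨p.1, p.2⟩ : GaussianInt)

open Classical in
/-- the nonzero Gaussian integers of absolute value at most `Y` -/
noncomputable def ball (Y : ℝ) : Finset GaussianInt :=
  (box ⌊Y⌋).filter fun z => z ≠ 0 ∧ nm z ≤ Y

theorem mem_ball {Y : ℝ} {z : GaussianInt} : z ∈ ball Y ↔ z ≠ 0 ∧ nm z ≤ Y := by
  classical
  unfold ball box
  rw [Finset.mem_filter, Finset.mem_image]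
  constructor
  · exact fun h => h.2
  · intro h
    refine ⟨⟨(z.re, z.im), ?_, rfl⟩, h⟩
    have h1 := (abs_le.1 ((abs_re_le z).trans h.2))
    have h2 := (abs_le.1 ((abs_im_le z).trans h.2))
    rw [Finset.mem_product, Finset.mem_Icc, Finset.mem_Icc]
    refine ⟨⟨?_, Int.le_floor.2 h1.2⟩, ⟨?_, Int.le_floor.2 h2.2⟩⟩
    · have : -z.re ≤ ⌊Y⌋ := Int.le_floor.2 (by push_cast; linarith [h1.1])
      simpa using neg_le.1 this
    · have : -z.im ≤ ⌊Y⌋ := Int.le_floor.2 (by push_cast; linarith [h2.1])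
      simpa using neg_le.1 this

theorem card_ball_le {Y : ℝ} (hY : 0 ≤ Y) : ((ball Y).card : ℝ) ≤ 9 * Y ^ 2 := by
  classical
  rcases lt_or_ge Y 1 with h | h
  · have : ball Y = ∅ := by
      rw [Finset.eq_empty_iff_forall_notMem]
      intro z hz
      rw [mem_ball] at hz
      have := one_le_nm hz.1
      linarith [hz.2]
    rw [this]
    simp
    positivity
  · have h1 : (ball Y).card ≤ (box ⌊Y⌋).card := Finset.card_filter_le _ _
    have h2 : (box ⌊Y⌋).card ≤ (2 * ⌊Y⌋ + 1).toNat * (2 * ⌊Y⌋ + 1).toNat := by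
      unfold box
      refine Finset.card_image_le.trans ?_
      rw [Finset.card_product, Int.card_Icc]
      have : ⌊Y⌋ + 1 - -⌊Y⌋ = 2 * ⌊Y⌋ + 1 := by ring
      rw [this]
    have h3 : (0 : ℤ) ≤ 2 * ⌊Y⌋ + 1 := by
      have := Int.floor_nonneg.2 hY
      omega
    have h4 : (((2 * ⌊Y⌋ + 1).toNat : ℕ) : ℝ) = 2 * (⌊Y⌋ : ℝ) + 1 := by
      have : (((2 * ⌊Y⌋ + 1).toNat : ℕ) : ℤ) = 2 * ⌊Y⌋ + 1 := Int.toNat_of_nonneg h3
      have h5 : (((2 * ⌊Y⌋ + 1).toNat : ℕ) : ℝ) = (((2 * ⌊Y⌋ + 1 : ℤ)) : ℝ) := by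
        rw [← this]; push_cast; rfl
      rw [h5]; push_cast; ring
    have h6 : ((ball Y).card : ℝ) ≤ (2 * (⌊Y⌋ : ℝ) + 1) * (2 * (⌊Y⌋ : ℝ) + 1) := by
      rw [← h4]
      exact_mod_cast h1.trans h2
    have h7 : (⌊Y⌋ : ℝ) ≤ Y := Int.floor_le Y
    have h8 : (0 : ℝ) ≤ ⌊Y⌋ := by exact_mod_cast Int.floor_nonneg.2 hY
    nlinarith

theorem card_ball_ge {Y : ℝ} (hY : 2 ≤ Y) : Y ^ 2 / 16 ≤ ((ball Y).card : ℝ) := by
  classical
  have h1 : ((Finset.Icc 1 ⌊Y / 2⌋₊) ×ˢ (Finset.Icc 1 ⌊Y / 2⌋₊)).image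
      (fun p : ℕ × ℕ => (⟨(p.1 : ℤ), (p.2 : ℤ)⟩ : GaussianInt)) ⊆ ball Y := by
    intro z hz
    obtain ⟨⟨x, y⟩, hp, rfl⟩ := Finset.mem_image.1 hz
    rw [Finset.mem_product, Finset.mem_Icc, Finset.mem_Icc] at hp
    obtain ⟨⟨hx1, hx2⟩, ⟨hy1, hy2⟩⟩ := hp
    simp only at hx1 hx2 hy1 hy2
    rw [mem_ball]
    have hf : ((⌊Y / 2⌋₊ : ℕ) : ℝ) ≤ Y / 2 := Nat.floor_le (by linarith)
    have hx3 : (x : ℝ) ≤ Y / 2 := le_trans (by exact_mod_cast hx2) hf
    have hy3 : (y : ℝ) ≤ Y / 2 := le_trans (by exact_mod_cast hy2) hf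
    refine ⟨?_, ?_⟩
    · intro h
      have := congrArg Zsqrtd.re h
      simp at this
      omega
    · refine (abs_le_of_sq_le_sq' ?_ (by linarith)).2
      rw [nm_sq]
      push_cast
      have hx0 : (0 : ℝ) ≤ x := Nat.cast_nonneg x
      have hy0 : (0 : ℝ) ≤ y := Nat.cast_nonneg y
      nlinarith
  have h2 := Finset.card_le_card h1
  rw [Finset.card_image_of_injective, Finset.card_product, Nat.card_Icc] at h2
  · have h3 : Y / 4 ≤ ((⌊Y / 2⌋₊ : ℕ) : ℝ) := by
      have h4 : Y / 2 - 1 < ((⌊Y / 2⌋₊ : ℕ) : ℝ) := Nat.sub_one_lt_floor _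
      have h5 : 1 ≤ ⌊Y / 2⌋₊ := Nat.le_floor (by push_cast; linarith)
      have h6 : (1 : ℝ) ≤ ((⌊Y / 2⌋₊ : ℕ) : ℝ) := by exact_mod_cast h5
      rcases le_or_gt Y 4 with h | h
      · linarith
      · linarith
    have h7 : ((⌊Y / 2⌋₊ : ℕ) : ℝ) * ((⌊Y / 2⌋₊ : ℕ) : ℝ) ≤ ((ball Y).card : ℝ) := by
      have : ⌊Y / 2⌋₊ * ⌊Y / 2⌋₊ ≤ (ball Y).card := by simpa using h2
      exact_mod_cast this
    nlinarith
  · intro p q h
    have h3 := congrArg Zsqrtd.re h
    have h4 := congrArg Zsqrtd.im h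
    simp at h3 h4
    exact Prod.ext h3 h4

/-- the sum of the fourth powers of the inverses converges -/
theorem summable_nm : Summable fun z : GaussianInt => 1 / nm z ^ 4 := by
  have h1 := EisensteinSeries.summable_one_div_norm_rpow (k := 4) (by norm_num)
  let g : GaussianInt → (Fin 2 → ℤ) := fun z => ![z.re, z.im]
  have hg : Function.Injective g := by
    intro z w h
    have h3 := congrFun h 0
    have h4 := congrFun h 1
    exact Zsqrtd.ext h3 h4
  refine Summable.of_nonneg_of_le (fun z => by positivity) ?_ (h1.comp_injective hg)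
  intro z
  by_cases hz : z = 0
  · rw [hz]
    have : nm 0 = 0 := by unfold nm; simp
    rw [this]
    simp
  have h2 : ‖g z‖ ≤ nm z := by
    rw [pi_norm_le_iff_of_nonneg (nm_nonneg z)]
    intro i
    fin_cases i
    · simpa [g, Int.norm_eq_abs] using abs_re_le z
    · simpa [g, Int.norm_eq_abs] using abs_im_le z
  have h3 : 0 < ‖g z‖ := by
    rw [norm_pos_iff]
    intro h
    apply hz
    apply hg
    rw [h]
    funext i
    fin_cases i <;> rfl
  show 1 / nm z ^ 4 ≤ ‖g z‖ ^ (-(4 : ℝ))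
  rw [Real.rpow_neg h3.le, one_div]
  refine inv_anti₀ (by positivity) ?_
  rw [show (4 : ℝ) = ((4 : ℕ) : ℝ) by norm_num, Real.rpow_natCast]
  exact pow_le_pow_left₀ h3.le h2 4

open Classical in
/-- the coprime pairs of absolute values at most `Y` -/
noncomputable def cop (Y : ℝ) : Finset (GaussianInt × GaussianInt) :=
  ((ball Y) ×ˢ (ball Y)).filter fun p => IsCoprime p.1 p.2

theorem mem_cop {Y : ℝ} {p : GaussianInt × GaussianInt} :
    p ∈ cop Y ↔ (p.1 ∈ ball Y ∧ p.2 ∈ ball Y) ∧ IsCoprime p.1 p.2 := by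
  classical
  unfold cop
  rw [Finset.mem_filter, Finset.mem_product]

theorem ball_mono {Y Z : ℝ} (h : Y ≤ Z) : ball Y ⊆ ball Z := by
  intro z hz
  rw [mem_ball] at *
  exact ⟨hz.1, hz.2.trans h⟩

theorem cop_mono {Y Z : ℝ} (h : Y ≤ Z) : cop Y ⊆ cop Z := by
  intro p hp
  rw [mem_cop] at *
  exact ⟨⟨ball_mono h hp.1.1, ball_mono h hp.1.2⟩, hp.2⟩

theorem card_cop_le {Y : ℝ} (hY : 0 ≤ Y) : ((cop Y).card : ℝ) ≤ 81 * Y ^ 4 := by
  classical
  have h1 : (cop Y).card ≤ (ball Y).card * (ball Y).card := by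
    unfold cop
    refine (Finset.card_filter_le _ _).trans ?_
    rw [Finset.card_product]
  have h2 := card_ball_le hY
  have h3 : ((cop Y).card : ℝ) ≤ ((ball Y).card : ℝ) * ((ball Y).card : ℝ) := by exact_mod_cast h1
  have h4 : (0 : ℝ) ≤ (ball Y).card := Nat.cast_nonneg _
  nlinarith

/-- every pair is a multiple of a coprime pair -/
theorem card_sq_le (Y : ℝ) : (ball Y).card * (ball Y).card ≤
    ∑ g ∈ ball Y, (cop (Y / nm g)).card := by
  classical
  rw [← Finset.card_product, ← Finset.card_sigma]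
  let f : GaussianInt × GaussianInt → (Σ _ : GaussianInt, GaussianInt × GaussianInt) := fun p =>
    ⟨EuclideanDomain.gcd p.1 p.2, (p.1 / EuclideanDomain.gcd p.1 p.2,
      p.2 / EuclideanDomain.gcd p.1 p.2)⟩
  have key : ∀ p ∈ ball Y ×ˢ ball Y, EuclideanDomain.gcd p.1 p.2 ≠ 0 ∧
      p.1 = EuclideanDomain.gcd p.1 p.2 * (p.1 / EuclideanDomain.gcd p.1 p.2) ∧
      p.2 = EuclideanDomain.gcd p.1 p.2 * (p.2 / EuclideanDomain.gcd p.1 p.2) := by
    intro p hp
    rw [Finset.mem_product, mem_ball, mem_ball] at hp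
    refine ⟨?_, ?_, ?_⟩
    · intro h
      rw [EuclideanDomain.gcd_eq_zero_iff] at h
      exact hp.1.1 h.1
    · exact (EuclideanDomain.mul_div_cancel' (fun h => hp.1.1
        ((EuclideanDomain.gcd_eq_zero_iff).1 h).1) (EuclideanDomain.gcd_dvd_left _ _)).symm
    · exact (EuclideanDomain.mul_div_cancel' (fun h => hp.1.1
        ((EuclideanDomain.gcd_eq_zero_iff).1 h).1) (EuclideanDomain.gcd_dvd_right _ _)).symm
  refine Finset.card_le_card_of_injOn f ?_ ?_
  · intro p hp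
    obtain ⟨h1, h2, h3⟩ := key p hp
    have hp' := hp
    rw [Finset.mem_coe, Finset.mem_product, mem_ball, mem_ball] at hp'
    obtain ⟨⟨h4, h5⟩, ⟨h6, h7⟩⟩ := hp'
    have hg1 := one_le_nm h1
    have hd : ∀ x y : GaussianInt, x = EuclideanDomain.gcd p.1 p.2 * y → x ≠ 0 → nm x ≤ Y →
        y ∈ ball (Y / nm (EuclideanDomain.gcd p.1 p.2)) ∧ nm (EuclideanDomain.gcd p.1 p.2) ≤ Y := by
      intro x y hxy hx0 hx
      have hy0 : y ≠ 0 := by
        rintro rfl
        exact hx0 (by rw [hxy, mul_zero])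
      have hy1 := one_le_nm hy0
      rw [hxy, nm_mul] at hx
      refine ⟨?_, by nlinarith⟩
      rw [mem_ball]
      refine ⟨hy0, ?_⟩
      rw [le_div_iff₀ (by linarith)]
      linarith
    have h8 := hd _ _ h2 h4 h5
    have h9 := hd _ _ h3 h6 h7
    rw [Finset.mem_coe, Finset.mem_sigma, mem_ball, mem_cop]
    refine ⟨⟨h1, h8.2⟩, ⟨h8.1, h9.1⟩, ?_⟩
    refine ⟨EuclideanDomain.gcdA p.1 p.2, EuclideanDomain.gcdB p.1 p.2, ?_⟩
    apply mul_left_cancel₀ h1
    have h10 := EuclideanDomain.gcd_eq_gcd_ab p.1 p.2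
    calc EuclideanDomain.gcd p.1 p.2 * (EuclideanDomain.gcdA p.1 p.2 *
          (p.1 / EuclideanDomain.gcd p.1 p.2) + EuclideanDomain.gcdB p.1 p.2 *
          (p.2 / EuclideanDomain.gcd p.1 p.2))
        = (EuclideanDomain.gcd p.1 p.2 * (p.1 / EuclideanDomain.gcd p.1 p.2)) *
            EuclideanDomain.gcdA p.1 p.2 + (EuclideanDomain.gcd p.1 p.2 *
            (p.2 / EuclideanDomain.gcd p.1 p.2)) * EuclideanDomain.gcdB p.1 p.2 := by ring
      _ = p.1 * EuclideanDomain.gcdA p.1 p.2 + p.2 * EuclideanDomain.gcdB p.1 p.2 := by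
          rw [← h2, ← h3]
      _ = EuclideanDomain.gcd p.1 p.2 * 1 := by rw [mul_one]; exact h10.symm
  · intro p hp q hq h
    obtain ⟨h1, h2, h3⟩ := key p hp
    obtain ⟨h4, h5, h6⟩ := key q hq
    have h7 : EuclideanDomain.gcd p.1 p.2 = EuclideanDomain.gcd q.1 q.2 := congrArg Sigma.fst h
    have h8 : (p.1 / EuclideanDomain.gcd p.1 p.2, p.2 / EuclideanDomain.gcd p.1 p.2) =
        (q.1 / EuclideanDomain.gcd q.1 q.2, q.2 / EuclideanDomain.gcd q.1 q.2) :=
      eq_of_heq (Sigma.mk.inj_iff.1 h).2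
    have h9 := congrArg Prod.fst h8
    have h10 := congrArg Prod.snd h8
    simp only at h9 h10
    refine Prod.ext ?_ ?_
    · rw [h2, h5, h9, h7]
    · rw [h3, h6, h10, h7]

/-- there are many coprime pairs -/
theorem cop_many : ∃ c : ℝ, 0 < c ∧ ∀ Y : ℝ, 2 ≤ Y → c * Y ^ 4 ≤ ((cop Y).card : ℝ) := by
  classical
  obtain ⟨s, hs⟩ := (summable_nm).vanishing (e := Metric.ball 0 (1 / (81 * 512)))
    (Metric.ball_mem_nhds _ (by norm_num))
  refine ⟨1 / (512 * (s.card + 1)), by positivity, ?_⟩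
  intro Y hY
  have h1 := card_sq_le Y
  have h2 := card_ball_ge hY
  have h3 : ((ball Y).card : ℝ) * (ball Y).card ≤ ∑ g ∈ ball Y, ((cop (Y / nm g)).card : ℝ) := by
    exact_mod_cast h1
  have h4 : ∑ g ∈ ball Y, ((cop (Y / nm g)).card : ℝ) ≤
      (s.card : ℝ) * (cop Y).card + 81 * Y ^ 4 * (1 / (81 * 512)) := by
    rw [← Finset.sum_filter_add_sum_filter_not (ball Y) (· ∈ s)]
    refine add_le_add ?_ ?_
    · calc ∑ g ∈ (ball Y).filter (· ∈ s), ((cop (Y / nm g)).card : ℝ)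
          ≤ ∑ g ∈ (ball Y).filter (· ∈ s), ((cop Y).card : ℝ) := by
            refine Finset.sum_le_sum fun g hg => ?_
            rw [Finset.mem_filter, mem_ball] at hg
            have := one_le_nm hg.1.1
            exact_mod_cast Finset.card_le_card (cop_mono (div_le_self (by linarith) this))
        _ = (((ball Y).filter (· ∈ s)).card : ℝ) * (cop Y).card := by
            rw [Finset.sum_const, nsmul_eq_mul]
        _ ≤ (s.card : ℝ) * (cop Y).card := by
            refine mul_le_mul_of_nonneg_right ?_ (Nat.cast_nonneg _)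
            exact_mod_cast Finset.card_le_card fun g hg => (Finset.mem_filter.1 hg).2
    · calc ∑ g ∈ (ball Y).filter (fun g => g ∉ s), ((cop (Y / nm g)).card : ℝ)
          ≤ ∑ g ∈ (ball Y).filter (fun g => g ∉ s), 81 * Y ^ 4 * (1 / nm g ^ 4) := by
            refine Finset.sum_le_sum fun g hg => ?_
            rw [Finset.mem_filter, mem_ball] at hg
            have h5 := one_le_nm hg.1.1
            have h6 := card_cop_le (Y := Y / nm g) (by positivity)
            rw [div_pow] at h6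
            rw [mul_one_div, mul_div_assoc]
            exact h6
        _ = 81 * Y ^ 4 * ∑ g ∈ (ball Y).filter (fun g => g ∉ s), (1 / nm g ^ 4) := by
            rw [Finset.mul_sum]
        _ ≤ 81 * Y ^ 4 * (1 / (81 * 512)) := by
            refine mul_le_mul_of_nonneg_left ?_ (by positivity)
            have h7 := hs ((ball Y).filter (fun g => g ∉ s)) (by
              rw [Finset.disjoint_left]
              intro g hg
              exact (Finset.mem_filter.1 hg).2)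
            rw [Metric.mem_ball, dist_zero_right, Real.norm_eq_abs] at h7
            exact (le_abs_self _).trans h7.le
  have h5 : (0 : ℝ) ≤ (cop Y).card := Nat.cast_nonneg _
  have h6 : Y ^ 2 / 16 * (Y ^ 2 / 16) ≤ ((ball Y).card : ℝ) * (ball Y).card :=
    mul_le_mul h2 h2 (by positivity) (Nat.cast_nonneg _)
  have h7 : Y ^ 4 / 512 ≤ ((s.card : ℝ) + 1) * (cop Y).card := by nlinarith
  rw [one_div, mul_inv, mul_assoc, mul_comm, ← div_eq_mul_inv]
  have h8 : (0 : ℝ) < (s.card : ℝ) + 1 := by positivity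
  rw [div_le_iff₀ (by norm_num)]
  rw [inv_mul_le_iff₀ h8]
  nlinarith

end Pool.Agent.TH402.AK
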