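import Mathlib
import Pool.Agent.TH402.AK.Low
import Pool.Agent.TH876.KR.Main

set_option autoImplicit false

/-!
# Counting coprime triples of Gaussian integers
-/

namespace Pool.Agent.TH402.AK

open NumberField IsDedekindDomain Finset Pool.Agent.H691R3 Pool.Agent.TH876.Loc

/-- the larger of the three absolute values -/
noncomputable def size (a b : GaussianInt) : ℝ :=
  max ‖GaussianInt.toComplex a‖ (max ‖GaussianInt.toComplex b‖ ‖GaussianInt.toComplex (a + b)‖)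

/-- coprime triples of Gaussian integers -/
def GTri (p : GaussianInt × GaussianInt) : Prop :=
  p.1 ≠ 0 ∧ p.2 ≠ 0 ∧ p.1 + p.2 ≠ 0 ∧ IsCoprime p.1 p.2

theorem GTri.tri {p : GaussianInt × GaussianInt} (h : GTri p) : Tri (e p.1) (e p.2) := by
  obtain ⟨h1, h2, h3, h4⟩ := h
  refine ⟨?_, ?_, ?_, h4.map e.toRingHom⟩
  · exact (map_ne_zero_iff e e.injective).2 h1
  · exact (map_ne_zero_iff e e.injective).2 h2
  · rw [← map_add]
    exact (map_ne_zero_iff e e.injective).2 h3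

theorem one_le_size {p : GaussianInt × GaussianInt} (h : GTri p) : 1 ≤ size p.1 p.2 :=
  (one_le_nm h.1).trans (le_max_left _ _)

/-- the point of a pair -/
noncomputable def phi (p : GaussianInt × GaussianInt) : K4 := pt (e p.1) (e p.2)

theorem fibre {p q : GaussianInt × GaussianInt} (hp : GTri p) (hq : GTri q) (h : phi p = phi q) :
    ∃ u : GaussianInt, IsUnit u ∧ p = (q.1 * u, q.2 * u) := by
  obtain ⟨hp1, hp2, hp3, hp4⟩ := hp
  obtain ⟨hq1, hq2, hq3, hq4⟩ := hq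
  have hb1 : ((e p.2 : 𝓞 K4) : K4) ≠ 0 := coe_ne ((map_ne_zero_iff e e.injective).2 hp2)
  have hb2 : ((e q.2 : 𝓞 K4) : K4) ≠ 0 := coe_ne ((map_ne_zero_iff e e.injective).2 hq2)
  unfold phi pt at h
  rw [div_eq_div_iff hb1 hb2, e_coe, e_coe, e_coe, e_coe, ← map_mul, ← map_mul] at h
  have h1 : p.1 * q.2 = q.1 * p.2 := emb_inj h
  have h2 : p.2 ∣ q.2 := by
    refine hp4.symm.dvd_of_dvd_mul_left ?_
    rw [h1]
    exact dvd_mul_left _ _
  have h3 : q.2 ∣ p.2 := by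
    refine hq4.symm.dvd_of_dvd_mul_left ?_
    rw [← h1]
    exact dvd_mul_left _ _
  obtain ⟨u, hu⟩ := associated_of_dvd_dvd h3 h2
  refine ⟨u, u.isUnit, ?_⟩
  refine Prod.ext ?_ hu.symm
  show p.1 = q.1 * u
  apply mul_right_cancel₀ hq2
  rw [h1, ← hu]
  ring

open Classical in
theorem card_le_four (F : Finset (GaussianInt × GaussianInt)) (hF : ∀ p ∈ F, GTri p) :
    F.card ≤ 4 * (F.image phi).card := by
  refine Finset.card_le_mul_card_image F 4 ?_
  intro x hx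
  obtain ⟨q, hq, rfl⟩ := Finset.mem_image.1 hx
  have h1 : F.filter (fun a => phi a = phi q) ⊆
      ({1, -1, ⟨0, 1⟩, ⟨0, -1⟩} : Finset GaussianInt).image (fun u => (q.1 * u, q.2 * u)) := by
    intro p hp
    rw [Finset.mem_filter] at hp
    obtain ⟨u, hu, rfl⟩ := fibre (hF p hp.1) (hF q hq) hp.2
    rw [Finset.mem_image]
    refine ⟨u, ?_, rfl⟩
    rcases unit_cases hu with h | h | h | h <;> rw [h] <;> simp
  refine (Finset.card_le_card h1).trans (Finset.card_image_le.trans ?_)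
  exact Finset.card_le_four

theorem upper_height (ε : ℝ) (hε : 0 < ε) : ∃ C : ℝ, 0 < C ∧ ∀ X H : ℝ, 1 ≤ X → 1 ≤ H →
    ∀ F : Finset (GaussianInt × GaussianInt), (∀ p ∈ F, GTri p ∧
      rad (p.1 * p.2 * (p.1 + p.2)) ≤ X ∧ Real.log (size p.1 p.2) ≤ H) →
    (F.card : ℝ) ≤ C * H * X ^ (4 / 3 + ε) := by
  classical
  obtain ⟨C, hC, h⟩ := Pool.Agent.TH876.KR.main_count K4 (ε / 2) (by linarith)
  refine ⟨8 * C, by linarith, ?_⟩
  intro X H hX hH F hF
  have h1 := card_le_four F fun p hp => (hF p hp).1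
  have h2 := h (X ^ 2) (2 * H) (one_le_pow₀ hX) (by linarith) (F.image phi) (by
    intro x hx
    obtain ⟨p, hp, rfl⟩ := Finset.mem_image.1 hx
    obtain ⟨h3, h4, h5⟩ := hF p hp
    refine ⟨h3.tri.pt, ?_, ?_⟩
    · unfold phi
      rw [← rad_tri h3.tri]
      exact pow_le_pow_left₀ (rad_pos _) h4 2
    · unfold phi
      rw [hgt_gauss h3.tri]
      have : Real.log (size p.1 p.2) ≤ H := h5
      unfold size at this
      linarith)
  have h3 : (X ^ 2 : ℝ) ^ (2 / 3 + ε / 2) = X ^ (4 / 3 + ε) := by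
    rw [← Real.rpow_natCast, ← Real.rpow_mul (by linarith)]
    congr 1
    push_cast
    ring
  rw [h3] at h2
  have h4 : (F.card : ℝ) ≤ 4 * ((F.image phi).card : ℝ) := by exact_mod_cast h1
  calc (F.card : ℝ) ≤ 4 * ((F.image phi).card : ℝ) := h4
    _ ≤ 4 * (C * (2 * H) * X ^ (4 / 3 + ε)) := by linarith
    _ = 8 * C * H * X ^ (4 / 3 + ε) := by ring

theorem upper_all : ∃ (C : ℝ) (k : ℕ), 0 < C ∧ ∀ X : ℝ, 16 ≤ X →
    ∀ F : Finset (GaussianInt × GaussianInt), (∀ p ∈ F, GTri p ∧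
      rad (p.1 * p.2 * (p.1 + p.2)) ≤ X) →
    (F.card : ℝ) ≤ C * X ^ 2 * Real.log (Real.log X) ^ k / Real.log X := by
  classical
  obtain ⟨C, k, hC, h⟩ := Pool.Agent.TH876.Loc.count_all 2
  refine ⟨4 * C * 2 ^ k, k, by positivity, ?_⟩
  intro X hX F hF
  have h1 := card_le_four F fun p hp => (hF p hp).1
  have hX1 : (1 : ℝ) ≤ X := by linarith
  have h2 := h K4 finrank4 (X ^ 2) (by nlinarith) (F.image phi) (by
    intro x hx
    obtain ⟨p, hp, rfl⟩ := Finset.mem_image.1 hx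
    obtain ⟨h3, h4⟩ := hF p hp
    refine ⟨h3.tri.pt, ?_⟩
    unfold phi
    rw [← rad_tri h3.tri]
    exact pow_le_pow_left₀ (rad_pos _) h4 2)
  have hL : Real.exp 1 ≤ Real.log X := Pool.Agent.TH876.Loc.log_facts hX
  have hL0 : 0 < Real.log X := lt_of_lt_of_le (Real.exp_pos 1) hL
  have hll : 1 ≤ Real.log (Real.log X) := by
    rw [Real.le_log_iff_exp_le hL0]
    exact hL
  have h3 : Real.log (X ^ 2) = 2 * Real.log X := by
    rw [Real.log_pow]
    norm_num
  have h4 : Real.log (Real.log (X ^ 2)) ≤ 2 * Real.log (Real.log X) := by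
    rw [h3, Real.log_mul (by norm_num) hL0.ne']
    have := Real.log_two_lt_d9
    linarith
  have h5 : 0 ≤ Real.log (Real.log (X ^ 2)) := by
    refine Real.log_nonneg ?_
    rw [h3]
    have := Real.add_one_le_exp (1 : ℝ)
    linarith
  have h6 : (F.card : ℝ) ≤ 4 * ((F.image phi).card : ℝ) := by exact_mod_cast h1
  calc (F.card : ℝ) ≤ 4 * ((F.image phi).card : ℝ) := h6
    _ ≤ 4 * (C * X ^ 2 / Real.log (X ^ 2) * Real.log (Real.log (X ^ 2)) ^ k) := by linarith
    _ ≤ 4 * (C * X ^ 2 / Real.log X * (2 * Real.log (Real.log X)) ^ k) := by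
        refine mul_le_mul_of_nonneg_left ?_ (by norm_num)
        refine mul_le_mul ?_ (pow_le_pow_left₀ h5 h4 k) (by positivity) (by positivity)
        rw [h3]
        refine div_le_div_of_nonneg_left (by positivity) hL0 (by linarith)
    _ = 4 * C * 2 ^ k * X ^ 2 * Real.log (Real.log X) ^ k / Real.log X := by
        rw [mul_pow]
        ring

/-- the radical of a nonzero number is at most its absolute value -/
theorem rad_le {n : GaussianInt} (hn : n ≠ 0) : rad n ≤ nm n := by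
  classical
  unfold rad
  have hfin := quad_finite hn
  rw [finprod_mem_eq_finite_toFinset_prod _ hfin]
  have h1 : ∏ Q ∈ hfin.toFinset, Q ∣ n := by
    refine Finset.prod_dvd_of_coprime ?_ ?_
    · intro P hP Q hQ hPQ
      rw [Finset.mem_coe, Set.Finite.mem_toFinset] at hP hQ
      refine (hP.1.irreducible.coprime_iff_not_dvd).2 ?_
      intro h
      apply hPQ
      exact quadrant_uniq hP.2.2 hQ.2.2 ((hP.1.dvd_prime_iff_associated hQ.1).1 h)
    · intro Q hQ
      rw [Set.Finite.mem_toFinset] at hQ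
      exact hQ.2.1
  obtain ⟨m, hm⟩ := h1
  have hm0 : m ≠ 0 := by
    rintro rfl
    exact hn (by rw [hm, mul_zero])
  have h2 : nm (∏ Q ∈ hfin.toFinset, Q) = ∏ Q ∈ hfin.toFinset, ‖GaussianInt.toComplex Q‖ := by
    unfold nm
    rw [map_prod, norm_prod]
  calc ∏ Q ∈ hfin.toFinset, ‖GaussianInt.toComplex Q‖ = nm (∏ Q ∈ hfin.toFinset, Q) := h2.symm
    _ ≤ nm (∏ Q ∈ hfin.toFinset, Q) * nm m :=
        le_mul_of_one_le_right (nm_nonneg _) (one_le_nm hm0)
    _ = nm n := by rw [← nm_mul, ← hm]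

/-- many triples of small radical -/
theorem lower : ∃ c X0 : ℝ, 0 < c ∧ 1 ≤ X0 ∧ ∀ X : ℝ, X0 ≤ X →
    ∃ F : Finset (GaussianInt × GaussianInt), (∀ p ∈ F, GTri p ∧
      rad (p.1 * p.2 * (p.1 + p.2)) ≤ X ∧ Real.log (size p.1 p.2) ≤ 1 + Real.log X / 3) ∧
      c * X ^ (4 / 3 : ℝ) ≤ (F.card : ℝ) := by
  classical
  obtain ⟨c, hc, h⟩ := cop_many
  obtain ⟨Y0, hY0⟩ : ∃ Y0, Y0 = max 2 (18 / c + 1) := ⟨_, rfl⟩
  have hY02 : 2 ≤ Y0 := by rw [hY0]; exact le_max_left _ _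
  have hY0c : 18 / c ≤ Y0 := by
    rw [hY0]
    exact le_trans (by linarith) (le_max_right _ _)
  refine ⟨c / 4 * (1 / 2) ^ (4 / 3 : ℝ), 2 * Y0 ^ 3, by positivity, ?_, ?_⟩
  · have : (1 : ℝ) ≤ Y0 ^ 3 := one_le_pow₀ (by linarith)
    linarith
  intro X hX
  have hX0 : 0 < X := lt_of_lt_of_le (by positivity) hX
  obtain ⟨Y, hY⟩ : ∃ Y, Y = (X / 2) ^ (1 / 3 : ℝ) := ⟨_, rfl⟩
  have hYpos : 0 < Y := by rw [hY]; positivity
  have hY3 : Y ^ 3 = X / 2 := by
    rw [hY, ← Real.rpow_natCast, ← Real.rpow_mul (by positivity)]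
    norm_num
  have hYY0 : Y0 ≤ Y := by
    have h1 : Y0 ^ 3 ≤ Y ^ 3 := by rw [hY3]; linarith
    exact le_of_pow_le_pow_left₀ (by norm_num) hYpos.le h1
  have hY2 : 2 ≤ Y := hY02.trans hYY0
  refine ⟨(cop Y).filter fun p => p.1 + p.2 ≠ 0, ?_, ?_⟩
  · intro p hp
    rw [Finset.mem_filter, mem_cop, mem_ball, mem_ball] at hp
    obtain ⟨⟨⟨⟨h1, h2⟩, h3, h4⟩, h5⟩, h6⟩ := hp
    refine ⟨⟨h1, h3, h6, h5⟩, ?_, ?_⟩
    · refine (rad_le (mul_ne_zero (mul_ne_zero h1 h3) h6)).trans ?_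
      rw [nm_mul, nm_mul]
      have h7 := nm_add p.1 p.2
      have h8 : nm (p.1 + p.2) ≤ 2 * Y := by linarith
      calc nm p.1 * nm p.2 * nm (p.1 + p.2) ≤ Y * Y * (2 * Y) := by
            refine mul_le_mul (mul_le_mul h2 h4 (nm_nonneg _) hYpos.le) h8 (nm_nonneg _)
              (by positivity)
        _ = 2 * Y ^ 3 := by ring
        _ = X := by rw [hY3]; ring
    · have h7 : nm (p.1 + p.2) ≤ 2 * Y := (nm_add p.1 p.2).trans (by linarith)
      have h8 : size p.1 p.2 ≤ 2 * Y := by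
        unfold size
        refine max_le ?_ (max_le ?_ h7)
        · exact h2.trans (by linarith)
        · exact h4.trans (by linarith)
      have h9 : Real.log (size p.1 p.2) ≤ Real.log (2 * Y) :=
        Real.log_le_log (lt_of_lt_of_le one_pos (one_le_size ⟨h1, h3, h6, h5⟩)) h8
      refine h9.trans ?_
      rw [Real.log_mul (by norm_num) hYpos.ne', hY, Real.log_rpow (by positivity),
        Real.log_div hX0.ne' (by norm_num)]
      have := Real.log_two_lt_d9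
      have := Real.log_two_gt_d9
      linarith
  · have h1 := h Y hY2
    have h2 : (((cop Y).filter fun p => ¬ (p.1 + p.2 ≠ 0)).card : ℝ) ≤ 9 * Y ^ 2 := by
      refine le_trans ?_ (card_ball_le hYpos.le)
      have h3 : ((cop Y).filter fun p => ¬ (p.1 + p.2 ≠ 0)).card ≤ (ball Y).card := by
        refine Finset.card_le_card_of_injOn Prod.fst ?_ ?_
        · intro p hp
          rw [Finset.mem_coe, Finset.mem_filter, mem_cop] at hp
          exact hp.1.1.1
        · intro p hp q hq hpq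
          rw [Finset.mem_coe, Finset.mem_filter, not_not] at hp hq
          refine Prod.ext hpq ?_
          have h3 := hp.2
          have h4 := hq.2
          rw [← hpq] at h4
          exact (add_left_cancel (h3.trans h4.symm))
      exact_mod_cast h3
    have h4 := Finset.card_filter_add_card_filter_not (s := cop Y) (fun p => p.1 + p.2 ≠ 0)
    have h5 : (((cop Y).filter fun p => p.1 + p.2 ≠ 0).card : ℝ) +
        (((cop Y).filter fun p => ¬ (p.1 + p.2 ≠ 0)).card : ℝ) = ((cop Y).card : ℝ) := by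
      exact_mod_cast h4
    have h6 : 9 * Y ^ 2 ≤ c / 2 * Y ^ 4 := by
      have h7 : 18 / c ≤ Y := hY0c.trans hYY0
      rw [div_le_iff₀ hc] at h7
      have h8 : 18 ≤ Y * c * Y := by nlinarith
      have h9 : 0 < Y ^ 2 := by positivity
      nlinarith
    have h7 : X ^ (4 / 3 : ℝ) = (2 : ℝ) ^ (4 / 3 : ℝ) * Y ^ 4 := by
      have h8 : X = 2 * Y ^ 3 := by rw [hY3]; ring
      rw [h8, Real.mul_rpow (by norm_num) (by positivity), ← Real.rpow_natCast Y 3,
        ← Real.rpow_mul hYpos.le, ← Real.rpow_natCast Y 4]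
      norm_num
    have h8 : (1 / 2 : ℝ) ^ (4 / 3 : ℝ) * (2 : ℝ) ^ (4 / 3 : ℝ) = 1 := by
      rw [← Real.mul_rpow (by norm_num) (by norm_num)]
      norm_num
    have h9 : c / 4 * (1 / 2) ^ (4 / 3 : ℝ) * X ^ (4 / 3 : ℝ) = c / 4 * Y ^ 4 := by
      rw [h7]
      calc c / 4 * (1 / 2) ^ (4 / 3 : ℝ) * ((2 : ℝ) ^ (4 / 3 : ℝ) * Y ^ 4)
          = c / 4 * ((1 / 2 : ℝ) ^ (4 / 3 : ℝ) * (2 : ℝ) ^ (4 / 3 : ℝ)) * Y ^ 4 := by ring
        _ = c / 4 * Y ^ 4 := by rw [h8, mul_one]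
    rw [h9]
    have h10 : 0 ≤ c * Y ^ 4 := by positivity
    linarith

end Pool.Agent.TH402.AK
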