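import Mathlib
import Pool.Agent.TH876.KR.Main

set_option autoImplicit false

/-!
# The weak abc inequality over a number field: height and conductor
-/

namespace Pool.Agent.TH402.AK.Weak

open NumberField IsDedekindDomain Finset Pool.Agent.H691R3 Pool.Agent.TH876.Loc

variable {K : Type} [Field K] [NumberField K]

/-- the absolute logarithmic Weil height -/
noncomputable def height (x : K) : ℝ :=
  (1 / (Module.finrank ℚ K : ℝ)) *
    ((∑ w : InfinitePlace K, (w.mult : ℝ) * Real.log (max 1 (w x))) +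
      ∑ᶠ v : HeightOneSpectrum (𝓞 K), Real.log (max 1 (FinitePlace.mk v x)))

/-- the conductor -/
noncomputable def cond (x : K) : ℝ :=
  (1 / (Module.finrank ℚ K : ℝ)) *
    (∑ᶠ v : HeightOneSpectrum (𝓞 K),
      (if FinitePlace.mk v x < 1 then Real.log (Ideal.absNorm v.asIdeal : ℝ) else 0))

theorem d_pos : 0 < (Module.finrank ℚ K : ℝ) := by
  have : 0 < Module.finrank ℚ K := Module.finrank_pos
  exact_mod_cast this

omit [NumberField K] in
theorem pt_neg {x : K} (h0 : x ≠ 0) (h1 : x ≠ 1) : Pt (-x) := by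
  refine ⟨neg_ne_zero.2 h0, ?_⟩
  intro h
  apply h1
  linear_combination -h

theorem mem_sp_neg {x : K} (h0 : x ≠ 0) (h1 : x ≠ 1) (v : Pr K) :
    v ∈ sp (-x) ↔ ¬ (fv v x = 1 ∧ fv v (x - 1) = 1) := by
  rw [mem_sp (pt_neg h0 h1), (fv v).map_neg]
  have : -x + 1 = -(x - 1) := by ring
  rw [this, (fv v).map_neg]

theorem cond_eq {x : K} {T : Finset (Pr K)} (hT : ∀ v, fv v x < 1 → v ∈ T) :
    cond x = (1 / (Module.finrank ℚ K : ℝ)) *
      ∑ v ∈ T, (if fv v x < 1 then Real.log (Nv v) else 0) := by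
  unfold cond
  congr 1
  rw [finsum_eq_sum_of_support_subset (s := T)]
  · rfl
  · intro v hv
    rw [Function.mem_support] at hv
    apply hT
    by_contra h
    exact hv (if_neg h)

/-- the conductors add up to the radical -/
theorem cond_sum {x : K} (h0 : x ≠ 0) (h1 : x ≠ 1) :
    (Module.finrank ℚ K : ℝ) * (cond x + cond x⁻¹ + cond (x - 1)) = Real.log (nn (sp (-x))) := by
  have hd := (d_pos (K := K)).ne'
  have e0 : ∀ v : Pr K, fv v x < 1 → v ∈ sp (-x) := by
    intro v hv
    rw [mem_sp_neg h0 h1]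
    rintro ⟨h, _⟩
    linarith
  have e1 : ∀ v : Pr K, fv v x⁻¹ < 1 → v ∈ sp (-x) := by
    intro v hv
    rw [mem_sp_neg h0 h1]
    rintro ⟨h, _⟩
    rw [map_inv₀, h] at hv
    norm_num at hv
  have e2 : ∀ v : Pr K, fv v (x - 1) < 1 → v ∈ sp (-x) := by
    intro v hv
    rw [mem_sp_neg h0 h1]
    rintro ⟨_, h⟩
    linarith
  rw [cond_eq e0, cond_eq e1, cond_eq e2, Pool.Agent.TH876.KR.log_nn]
  have h2 : ∀ v ∈ sp (-x), Real.log (Nv v) = (if fv v x < 1 then Real.log (Nv v) else 0) +
      (if fv v x⁻¹ < 1 then Real.log (Nv v) else 0) +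
      (if fv v (x - 1) < 1 then Real.log (Nv v) else 0) := by
    intro v hv
    rw [mem_sp_neg h0 h1] at hv
    have hx := (fv v).pos h0
    have hx1 := (fv v).pos (sub_ne_zero.2 h1)
    have hna : fv v (x - 1) ≤ max (fv v x) 1 := by
      have := fv_na v x (-1)
      rw [(fv v).map_neg, map_one] at this
      rw [sub_eq_add_neg]
      exact this
    have hna2 : fv v x ≤ max (fv v (x - 1)) 1 := by
      have := fv_na v (x - 1) 1
      rw [map_one] at this
      simpa using this
    have hna3 : 1 ≤ max (fv v x) (fv v (x - 1)) := by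
      have := fv_na v x (-(x - 1))
      rw [(fv v).map_neg] at this
      have e : x + -(x - 1) = 1 := by ring
      rw [e, map_one] at this
      exact this
    have hiv : fv v x⁻¹ < 1 ↔ 1 < fv v x := by rw [map_inv₀, inv_lt_one₀ hx]
    rcases lt_trichotomy (fv v x) 1 with h | h | h
    · have h3 : ¬ fv v (x - 1) < 1 := by
        intro h4
        have := max_lt h h4
        linarith
      rw [if_pos h, if_neg (fun h5 => absurd (hiv.1 h5) (not_lt.2 h.le)), if_neg h3]
      ring
    · have h3 : fv v (x - 1) < 1 := by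
        rw [h] at hna
        rw [max_self] at hna
        exact lt_of_le_of_ne hna fun h4 => hv ⟨h, h4⟩
      rw [if_neg (by rw [h]; exact lt_irrefl 1),
        if_neg (fun h5 => by have := hiv.1 h5; rw [h] at this; exact lt_irrefl 1 this), if_pos h3]
      ring
    · have h3 : ¬ fv v (x - 1) < 1 := by
        intro h4
        have : fv v x ≤ 1 := hna2.trans (max_le h4.le le_rfl)
        linarith
      rw [if_neg (not_lt.2 h.le), if_pos (hiv.2 h), if_neg h3]
      ring
  rw [Finset.sum_congr rfl h2, Finset.sum_add_distrib, Finset.sum_add_distrib]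
  field_simp

/-- the height of the point -/
theorem hgt_le {x : K} (h0 : x ≠ 0) (h1 : x ≠ 1) :
    hgt (-x) ≤ (Module.finrank ℚ K : ℝ) * (height x + Real.log 2) := by
  have hd := (d_pos (K := K)).ne'
  unfold hgt
  rw [sum_Spl]
  have hfin : ∑ v ∈ sp (-x), mx (Sum.inr v : Pl K) (-x) =
      ∑ᶠ v : HeightOneSpectrum (𝓞 K), Real.log (max 1 (FinitePlace.mk v x)) := by
    rw [finsum_eq_sum_of_support_subset (s := sp (-x))]
    · refine Finset.sum_congr rfl fun v _ => ?_
      unfold mx
      show 1 * Real.log (max (fv v (-x)) (max (fv v 1) (fv v (- -x - 1)))) =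
        Real.log (max 1 (fv v x))
      rw [one_mul, (fv v).map_neg, map_one, neg_neg]
      congr 1
      have hna : fv v (x - 1) ≤ max (fv v x) 1 := by
        have := fv_na v x (-1)
        rw [(fv v).map_neg, map_one] at this
        rw [sub_eq_add_neg]
        exact this
      rw [← max_assoc, max_eq_left hna, max_comm]
    · intro v hv
      rw [Function.mem_support] at hv
      rw [Finset.mem_coe, mem_sp_neg h0 h1]
      rintro ⟨h, _⟩
      apply hv
      show Real.log (max 1 (fv v x)) = 0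
      rw [h, max_self, Real.log_one]
  have hinf : ∀ w : InfinitePlace K, mx (Sum.inl w : Pl K) (-x) ≤
      (w.mult : ℝ) * Real.log (max 1 (w x)) + (w.mult : ℝ) * Real.log 2 := by
    intro w
    unfold mx
    show (w.mult : ℝ) * Real.log (max (w (-x)) (max (w 1) (w (- -x - 1)))) ≤ _
    have e1 : w (-x) = w x := w.1.map_neg x
    have e2 : w (- -x - 1) ≤ w x + 1 := by
      have h3 : w (- -x - 1) ≤ w (- -x) + w 1 := by
        rw [sub_eq_add_neg]
        have h4 := w.1.add_le (- -x) (-1)
        have h5 : w.1 (-1) = w.1 1 := w.1.map_neg 1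
        rw [h5] at h4
        exact h4
      rw [neg_neg, map_one] at h3
      rw [neg_neg]
      exact h3
    rw [e1, map_one, ← mul_add, ← Real.log_mul (by positivity) (by norm_num)]
    refine mul_le_mul_of_nonneg_left ?_ (Nat.cast_nonneg _)
    have h6 : (1 : ℝ) ≤ max 1 (w x) := le_max_left _ _
    have h7 : w x ≤ max 1 (w x) := le_max_right _ _
    refine Real.log_le_log (lt_of_lt_of_le one_pos ((le_max_left _ _).trans (le_max_right _ _))) ?_
    refine max_le (by linarith) (max_le (by linarith) ?_)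
    linarith
  have hsum : ∑ w : InfinitePlace K, (w.mult : ℝ) = (Module.finrank ℚ K : ℝ) := by
    rw [← Nat.cast_sum, InfinitePlace.sum_mult_eq]
  rw [hfin]
  have h8 := Finset.sum_le_sum fun w (_ : w ∈ (Finset.univ : Finset (InfinitePlace K))) => hinf w
  rw [Finset.sum_add_distrib, ← Finset.sum_mul, hsum] at h8
  have h9 : (Module.finrank ℚ K : ℝ) * height x =
      (∑ w : InfinitePlace K, (w.mult : ℝ) * Real.log (max 1 (w x))) +
      ∑ᶠ v : HeightOneSpectrum (𝓞 K), Real.log (max 1 (FinitePlace.mk v x)) := by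
    unfold height
    rw [← mul_assoc, mul_one_div_cancel hd, one_mul]
  rw [mul_add, h9]
  linarith

/-- the count of the violations of the weak abc inequality -/
theorem count (K : Type) [Field K] [NumberField K] (ε : ℝ) (hε : 0 < ε) :
    ∃ C : ℝ, 0 < C ∧ ∀ κ B : ℝ, 0 < κ → 1 ≤ B → ∀ F : Finset K,
      (∀ x ∈ F, x ≠ 0 ∧ x ≠ 1 ∧ height x ≤ B ∧
        κ * (cond x + cond x⁻¹ + cond (x - 1) + 1) < height x) →
      (F.card : ℝ) ≤ C * B * Real.exp ((2 / 3 + ε) * (Module.finrank ℚ K : ℝ) * (B / κ)) := by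
  classical
  obtain ⟨C, hC, h⟩ := Pool.Agent.TH876.KR.main_count K ε hε
  have hd := d_pos (K := K)
  have hd1 : (1 : ℝ) ≤ (Module.finrank ℚ K : ℝ) := by
    have : 1 ≤ Module.finrank ℚ K := Module.finrank_pos
    exact_mod_cast this
  refine ⟨C * (2 * (Module.finrank ℚ K : ℝ)), by positivity, ?_⟩
  intro κ B hκ hB F hF
  have hBκ : 0 < B / κ := by positivity
  have h1 := h (Real.exp ((Module.finrank ℚ K : ℝ) * (B / κ)))
    (2 * (Module.finrank ℚ K : ℝ) * B) (Real.one_le_exp (by positivity))
    (by nlinarith) (F.image Neg.neg) (by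
      intro y hy
      obtain ⟨x, hx, rfl⟩ := Finset.mem_image.1 hy
      obtain ⟨h2, h3, h4, h5⟩ := hF x hx
      refine ⟨pt_neg h2 h3, ?_, ?_⟩
      · rw [← Real.exp_log (nn_pos (sp (-x)))]
        refine Real.exp_le_exp.2 ?_
        rw [← cond_sum h2 h3]
        refine mul_le_mul_of_nonneg_left ?_ hd.le
        rw [le_div_iff₀ hκ]
        nlinarith
      · refine (hgt_le h2 h3).trans ?_
        have h6 := Real.log_two_lt_d9
        have h7 : height x + Real.log 2 ≤ 2 * B := by linarith
        nlinarith)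
  rw [Finset.card_image_of_injective _ neg_injective] at h1
  refine h1.trans (le_of_eq ?_)
  rw [← Real.exp_mul]
  have : (Module.finrank ℚ K : ℝ) * (B / κ) * (2 / 3 + ε) =
      (2 / 3 + ε) * (Module.finrank ℚ K : ℝ) * (B / κ) := by ring
  rw [this]
  ring

end Pool.Agent.TH402.AK.Weak
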