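import Pool.Agent.TH402.AK.Base
import Pool.Agent.TH876.KR.Main

set_option autoImplicit false

/-!
# Counting coprime triples up to units by radical
-/

namespace Pool.Agent.TH402.AK.Trip

open NumberField IsDedekindDomain Finset Pool.Agent.TH876.Loc Pool.Agent.TH402.AK

variable {K : Type} [Field K] [NumberField K]

/-- the triples in lowest terms with `a + b + c = 0` and `abc ≠ 0` -/
structure Triple (t : 𝓞 K × 𝓞 K × 𝓞 K) : Prop where
  sum : t.1 + t.2.1 + t.2.2 = 0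
  ne : t.1 * t.2.1 * t.2.2 ≠ 0
  cop : Ideal.span {t.1, t.2.1, t.2.2} = (⊤ : Ideal (𝓞 K))

/-- the height -/
noncomputable def height (t : 𝓞 K × 𝓞 K × 𝓞 K) : ℝ :=
  ∏ φ : K →+* ℂ, max ‖φ t.1‖ (max ‖φ t.2.1‖ ‖φ t.2.2‖)

/-- the radical -/
noncomputable def rad (t : 𝓞 K × 𝓞 K × 𝓞 K) : ℝ :=
  ∏ᶠ (P : HeightOneSpectrum (𝓞 K)) (_ : t.1 * t.2.1 * t.2.2 ∈ P.asIdeal),
    (Ideal.absNorm P.asIdeal : ℝ)

theorem Triple.c_eq {t : 𝓞 K × 𝓞 K × 𝓞 K} (h : Triple t) : t.2.2 = -(t.1 + t.2.1) := by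
  have := h.sum
  linear_combination this

theorem Triple.tri {t : 𝓞 K × 𝓞 K × 𝓞 K} (h : Triple t) : Tri t.1 t.2.1 := by
  have h1 := h.ne
  have h2 := h.c_eq
  refine ⟨left_ne_zero_of_mul (left_ne_zero_of_mul h1), right_ne_zero_of_mul (left_ne_zero_of_mul h1), ?_, ?_⟩
  · intro h3
    have h4 := right_ne_zero_of_mul h1
    rw [h2, h3, neg_zero] at h4
    exact h4 rfl
  · have h3 : (1 : 𝓞 K) ∈ Ideal.span {t.1, t.2.1, t.2.2} := by rw [h.cop]; trivial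
    have h4 : Ideal.span {t.1, t.2.1, t.2.2} ≤ Ideal.span {t.1, t.2.1} := by
      rw [Ideal.span_le]
      rintro x (rfl | rfl | rfl)
      · exact Ideal.subset_span (by simp)
      · exact Ideal.subset_span (by simp)
      · rw [h2]
        exact neg_mem (add_mem (Ideal.subset_span (by simp)) (Ideal.subset_span (by simp)))
    obtain ⟨x, y, hxy⟩ := Ideal.mem_span_pair.1 (h4 h3)
    exact ⟨x, y, hxy⟩

theorem rad_eq {t : 𝓞 K × 𝓞 K × 𝓞 K} (h : Triple t) : rad t = nn (sp (pt t.1 t.2.1)) := by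
  have h1 : ∀ P : HeightOneSpectrum (𝓞 K), (t.1 * t.2.1 * t.2.2 ∈ P.asIdeal) ↔
      P ∈ sp (pt t.1 t.2.1) := by
    intro P
    rw [h.tri.mem_sp, h.c_eq, mul_neg, neg_mem_iff]
  unfold rad nn
  simp_rw [h1]
  rw [finprod_mem_finset_eq_prod]
  rfl

theorem hgt_eq {t : 𝓞 K × 𝓞 K × 𝓞 K} (h : Triple t) :
    Real.log (height t) = hgt (pt t.1 t.2.1) := by
  classical
  rw [h.tri.hgt]
  unfold height
  have hpos : ∀ φ : K →+* ℂ, 0 < max ‖φ t.1‖ (max ‖φ t.2.1‖ ‖φ t.2.2‖) := by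
    intro φ
    refine lt_of_lt_of_le ?_ (le_max_left _ _)
    rw [norm_pos_iff]
    intro h1
    have h2 := (map_eq_zero φ).1 h1
    exact h.tri.a0 (RingOfIntegers.coe_eq_zero_iff.1 h2)
  rw [Real.log_prod (fun φ _ => (hpos φ).ne')]
  have e : ∀ φ : K →+* ℂ, Real.log (max ‖φ t.1‖ (max ‖φ t.2.1‖ ‖φ t.2.2‖)) =
      (fun w : InfinitePlace K => Real.log (max (w (t.1 : K)) (max (w (t.2.1 : K))
        (w ((t.1 + t.2.1 : 𝓞 K) : K))))) (InfinitePlace.mk φ) := by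
    intro φ
    have e1 : ‖φ t.2.2‖ = ‖φ ((t.1 + t.2.1 : 𝓞 K) : K)‖ := by
      rw [h.c_eq]
      push_cast
      rw [map_neg, norm_neg]
    simp only [InfinitePlace.apply]
    rw [e1]
  rw [sum_congr rfl fun φ _ => e φ, ← sum_fiberwise (s := univ) (g := InfinitePlace.mk)]
  apply sum_congr rfl
  intro w _
  rw [sum_congr rfl (g := fun _ => Real.log (max (w (t.1 : K)) (max (w (t.2.1 : K))
        (w ((t.1 + t.2.1 : 𝓞 K) : K))))) (by
    intro φ hφ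
    rw [mem_filter] at hφ
    simp only [hφ.2])]
  rw [sum_const, nsmul_eq_mul]
  congr 1
  exact_mod_cast InfinitePlace.card_filter_mk_eq w

theorem inj {t s : 𝓞 K × 𝓞 K × 𝓞 K} (ht : Triple t) (hs : Triple s)
    (h : pt t.1 t.2.1 = pt s.1 s.2.1) : ∃ u : (𝓞 K)ˣ, s = (u * t.1, u * t.2.1, u * t.2.2) := by
  have h1 := coe_ne ht.tri.b0
  have h2 := coe_ne hs.tri.b0
  unfold pt at h
  rw [div_eq_div_iff h1 h2] at h
  have h3 : t.1 * s.2.1 = s.1 * t.2.1 := by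
    apply RingOfIntegers.coe_injective
    push_cast
    exact h
  have h4 : t.1 ∣ s.1 := by
    have : t.1 ∣ s.1 * t.2.1 := ⟨s.2.1, h3.symm⟩
    exact ht.tri.cop.dvd_of_dvd_mul_right this
  have h5 : s.1 ∣ t.1 := by
    have : s.1 ∣ t.1 * s.2.1 := ⟨t.2.1, h3⟩
    exact hs.tri.cop.dvd_of_dvd_mul_right this
  obtain ⟨u, hu⟩ := associated_of_dvd_dvd h4 h5
  refine ⟨u, ?_⟩
  have h6 : s.1 = u * t.1 := by rw [← hu, mul_comm]
  have h7 : s.2.1 = u * t.2.1 := by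
    have h8 : t.1 * s.2.1 = t.1 * (u * t.2.1) := by
      rw [h3, h6]
      ring
    exact mul_left_cancel₀ ht.tri.a0 h8
  refine Prod.ext h6 (Prod.ext h7 ?_)
  show s.2.2 = u * t.2.2
  rw [hs.c_eq, ht.c_eq, h6, h7]
  ring

theorem count (K : Type) [Field K] [NumberField K] (ε : ℝ) (hε : 0 < ε) :
    ∃ C : ℝ, 0 < C ∧ ∀ X L : ℝ, 1 ≤ X → 1 ≤ L → ∀ E : Finset (𝓞 K × 𝓞 K × 𝓞 K),
      (∀ t ∈ E, Triple t ∧ rad t ≤ X ∧ Real.log (height t) ≤ L) →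
      (∀ t ∈ E, ∀ s ∈ E, ∀ u : (𝓞 K)ˣ, s = (u * t.1, u * t.2.1, u * t.2.2) → s = t) →
      (E.card : ℝ) ≤ C * L * X ^ (2 / 3 + ε) := by
  classical
  obtain ⟨C, hC, h⟩ := Pool.Agent.TH876.KR.main_count K ε hε
  refine ⟨C, hC, fun X L hX hL E hE hun => ?_⟩
  have h1 := h X L hX hL (E.image fun t => pt t.1 t.2.1) (by
    intro x hx
    rw [mem_image] at hx
    obtain ⟨t, ht, rfl⟩ := hx
    obtain ⟨h1, h2, h3⟩ := hE t ht
    refine ⟨h1.tri.pt, ?_, ?_⟩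
    · rw [← rad_eq h1]
      exact h2
    · rw [← hgt_eq h1]
      exact h3)
  rwa [card_image_of_injOn] at h1
  intro t ht s hs he
  obtain ⟨u, hu⟩ := inj (hE t ht).1 (hE s hs).1 he
  exact (hun t ht s hs u hu).symm

end Pool.Agent.TH402.AK.Trip
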